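import Pool.Agent.Lib.G1.Main

open MvPolynomial

namespace Pool.Agent.Results.MP_3c72fe_ag.GenusOne

theorem result :
  ∀ r : ℕ, 10 ≤ r →
    ∃ S : Set (MvPolynomial (Fin r × Fin 2) ℂ), S.Countable ∧
      (0 : MvPolynomial (Fin r × Fin 2) ℂ) ∉ S ∧
      ∀ p : Fin r → Fin 2 → ℂ,
        (∀ g ∈ S, MvPolynomial.eval (fun ij : Fin r × Fin 2 => p ij.1 ij.2) g ≠ 0) →
        ∀ (F : MvPolynomial (Fin 3) ℂ) (d : ℕ), F.IsHomogeneous d → Irreducible F →
          (∃ W : WeierstrassCurve ℂ, W.IsElliptic ∧ ∃ a b c : W.toAffine.FunctionField,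
            MvPolynomial.aeval ![a, b, c] F = 0 ∧
            IntermediateField.adjoin ℂ {a / c, b / c} = ⊤) →
          ∀ m : Fin r → ℕ,
            (∀ i : Fin r, F ∈ (Ideal.span
                ({X 0 - C (p i 0) * X 2, X 1 - C (p i 1) * X 2} :
                  Set (MvPolynomial (Fin 3) ℂ))) ^ (m i)) →
            ∑ i : Fin r, (m i) ^ 2 ≤ d ^ 2 := by
  intro r hr
  obtain ⟨S, h1, h2, h3⟩ := Pool.Agent.Lib.MP_3c72fe_ag.exists_countable r
  exact ⟨S, h1, h2, fun p hp F d hF hi hW m hm => G1.main r p hr (h3 p hp) F d hF hi hW m hm⟩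

end Pool.Agent.Results.MP_3c72fe_ag.GenusOne
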