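import Pool.Agent.Lib.MP_3c72fe_ag.MainA

open MvPolynomial

namespace Pool.Agent.Results.MP_3c72fe_ag.TriplePoint

theorem result :
  ∀ r : ℕ, 10 ≤ r →
    ∃ S : Set (MvPolynomial (Fin r × Fin 2) ℂ), S.Countable ∧
      (0 : MvPolynomial (Fin r × Fin 2) ℂ) ∉ S ∧
      ∀ p : Fin r → Fin 2 → ℂ,
        (∀ g ∈ S, MvPolynomial.eval (fun ij : Fin r × Fin 2 => p ij.1 ij.2) g ≠ 0) →
        ∀ (F : MvPolynomial (Fin 3) ℂ) (d : ℕ), F.IsHomogeneous d → Irreducible F →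
          (¬ ∃ a b c : Polynomial ℂ,
              MvPolynomial.aeval (![a, b, c] : Fin 3 → Polynomial ℂ) F = 0 ∧
              ∃ t₁ t₂ : ℂ,
                (a.eval t₁ * b.eval t₂ - b.eval t₁ * a.eval t₂ ≠ 0 ∨
                 a.eval t₁ * c.eval t₂ - c.eval t₁ * a.eval t₂ ≠ 0 ∨
                 b.eval t₁ * c.eval t₂ - c.eval t₁ * b.eval t₂ ≠ 0)) →
          (∃ j : Fin r,
            F ∈ (Ideal.span ({X 0 - C (p j 0) * X 2, X 1 - C (p j 1) * X 2} :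
                  Set (MvPolynomial (Fin 3) ℂ))) ^ 2 ∧
            F ∉ (Ideal.span ({X 0 - C (p j 0) * X 2, X 1 - C (p j 1) * X 2} :
                  Set (MvPolynomial (Fin 3) ℂ))) ^ 4) →
          ∀ m : Fin r → ℕ,
            (∀ i : Fin r, F ∈ (Ideal.span
                ({X 0 - C (p i 0) * X 2, X 1 - C (p i 1) * X 2} :
                  Set (MvPolynomial (Fin 3) ℂ))) ^ (m i)) →
            ∑ i : Fin r, (m i) ^ 2 ≤ d ^ 2 := by
  intro r hr
  obtain ⟨S, h1, h2, h3⟩ := Pool.Agent.Lib.MP_3c72fe_ag.exists_countable r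
  refine ⟨S, h1, h2, fun p hp F d hF hi hP ⟨j, hj, hj'⟩ m hm => ?_⟩
  exact Pool.Agent.Lib.MP_3c72fe_ag.triple_point r (by omega) (h3 p hp) hF hi hP hj hj' hm

end Pool.Agent.Results.MP_3c72fe_ag.TriplePoint
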